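import Pool.Agent.Q240.KS.Stm1
import Pool.Agent.Helper112.Arith
import Pool.Agent.H376R2.MR.Mv

/-!
# Project KS of helper240: powers of a factor, jobs KS-LVM and KS-LVH
-/

set_option autoImplicit false

namespace Pool.Agent.Q166.KS

open Finset Pool.Agent.H376R2.MR Pool.Agent.Q240.KS

/-- polynomials are bounded by exponentials -/
lemma poly_exp (A ε : ℝ) (hA : 0 ≤ A) (hε : 0 < ε) : ∃ C : ℝ, 1 ≤ C ∧ ∀ d : ℕ,
    1 + A * ((d : ℝ) + 1) ≤ C * Real.exp (ε * d) := by
  refine ⟨1 + A + A / ε, ?_, ?_⟩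
  · have : 0 ≤ A / ε := by positivity
    linarith
  · intro d
    have h1 := Real.add_one_le_exp (ε * d)
    have h2 : (1 : ℝ) ≤ Real.exp (ε * d) := Real.one_le_exp (by positivity)
    have h3 : A * d ≤ A / ε * Real.exp (ε * d) := by
      have e1 : A * d = A / ε * (ε * d) := by field_simp
      rw [e1]
      apply mul_le_mul_of_nonneg_left _ (by positivity)
      linarith
    nlinarith

lemma ch_mul (k : ℤ) (m n : ℕ) (hm : 1 ≤ m) (hn : 1 ≤ n) :
    ch k (Real.log m) * ch k (Real.log n) = ch k (Real.log ((m * n : ℕ) : ℝ)) := by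
  have hm' : (m : ℝ) ≠ 0 := by exact_mod_cast (by omega : m ≠ 0)
  have hn' : (n : ℝ) ≠ 0 := by exact_mod_cast (by omega : n ≠ 0)
  unfold ch
  rw [← Complex.exp_add]
  congr 1
  push_cast
  rw [Real.log_mul hm' hn']
  push_cast
  ring

lemma ch_one (k : ℤ) : ch k (Real.log ((1 : ℕ) : ℝ)) = 1 := by
  unfold ch
  simp

lemma DP_mul (s s' : Finset ℕ) (a b : ℕ → ℂ) (k : ℤ) (hs : ∀ n ∈ s, 1 ≤ n)
    (hs' : ∀ n ∈ s', 1 ≤ n) : DP s a k * DP s' b k =
    DP ((s ×ˢ s').image (fun p => p.1 * p.2))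
      (fun N => ∑ p ∈ (s ×ˢ s').filter (fun p => p.1 * p.2 = N), a p.1 * b p.2) k := by
  classical
  unfold DP
  rw [Finset.sum_mul_sum, ← Finset.sum_product',
    ← Finset.sum_fiberwise_of_maps_to (g := fun p : ℕ × ℕ => p.1 * p.2)
      (t := (s ×ˢ s').image (fun p => p.1 * p.2))
      (fun p hp => Finset.mem_image_of_mem _ hp)]
  apply Finset.sum_congr rfl
  intro N _
  rw [Finset.sum_mul]
  apply Finset.sum_congr rfl
  rintro ⟨m, n⟩ hp
  rw [Finset.mem_filter, Finset.mem_product] at hp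
  obtain ⟨⟨hm, hn⟩, hN⟩ := hp
  simp only at hm hn hN ⊢
  rw [← hN, ← ch_mul k m n (hs m hm) (hs' n hn)]
  ring

lemma card_fiber (s s' : Finset ℕ) (N : ℕ) (hN : 1 ≤ N) :
    ((s ×ˢ s').filter (fun p => p.1 * p.2 = N)).card ≤ N.divisors.card := by
  classical
  apply Finset.card_le_card_of_injOn (fun p => p.1)
  · rintro ⟨m, n⟩ hp
    rw [Finset.mem_coe, Finset.mem_filter] at hp
    rw [Finset.mem_coe, Nat.mem_divisors]
    exact ⟨⟨n, hp.2.symm⟩, by omega⟩
  · rintro ⟨m, n⟩ hp ⟨m', n'⟩ hp' h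
    rw [Finset.mem_coe, Finset.mem_filter] at hp hp'
    simp only at h hp hp'
    subst h
    have h1 := hp.2.trans hp'.2.symm
    have hm : 0 < m := by
      rcases Nat.eq_zero_or_pos m with h0 | h0
      · have := hp.2
        rw [h0, zero_mul] at this
        omega
      · exact h0
    have := Nat.eq_of_mul_eq_mul_left hm h1
    rw [this]

/-- the support of the coefficients of a factor -/
lemma cf_supp (z : ℕ) (t : Fin 3) (d n : ℕ) (hn : 1 ≤ n) (h : cf z t d n ≠ 0) :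
    Real.exp (((d : ℝ) - 1) / 20) ≤ n ∧ (n : ℝ) ≤ Real.exp (((d : ℝ) + 1) / 20) := by
  have hn0 : (0 : ℝ) < n := by exact_mod_cast hn
  have hw : w (20 * Real.log n - d) ≠ 0 := by
    intro h0
    apply h
    unfold cf
    rw [h0]
    simp
  unfold w at hw
  have h1 : |20 * Real.log n - d| < 1 := by
    by_contra hc
    apply hw
    apply max_eq_left
    linarith [not_lt.1 hc]
  rw [abs_lt] at h1
  constructor
  · rw [← Real.le_log_iff_exp_le hn0]
    linarith
  · rw [← Real.log_le_iff_le_exp hn0]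
    linarith

lemma cf_le (z : ℕ) (t : Fin 3) (d n : ℕ) (hn : 1 ≤ n) :
    |cf z t d n| ≤ (1 + (d : ℝ)) / n := by
  by_cases h : cf z t d n = 0
  · rw [h, abs_zero]
    positivity
  · obtain ⟨h1, h2⟩ := cf_supp z t d n hn h
    have hn0 : (0 : ℝ) < n := by exact_mod_cast hn
    have hd : (0 : ℝ) ≤ d := Nat.cast_nonneg d
    have hlog : Real.log n ≤ ((d : ℝ) + 1) / 20 := (Real.log_le_iff_le_exp hn0).2 h2
    have hlog0 : 0 ≤ Real.log n := Real.log_nonneg (by exact_mod_cast hn)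
    unfold cf
    rw [abs_div, abs_mul, abs_of_pos hn0]
    apply div_le_div_of_nonneg_right _ hn0.le
    have hw : |w (20 * Real.log n - d)| ≤ 1 := by
      unfold w
      rw [abs_of_nonneg (le_max_left _ _)]
      apply max_le (by norm_num)
      linarith [abs_nonneg (20 * Real.log n - d)]
    have hc : |(if t = 0 then (if n ≤ z then ((ArithmeticFunction.moebius n : ℤ) : ℝ) else 0)
        else if t = 1 then 1 else Real.log n)| ≤ 1 + d := by
      split_ifs
      · have h3 : |ArithmeticFunction.moebius n| ≤ 1 := ArithmeticFunction.abs_moebius_le_one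
        have h4 : |((ArithmeticFunction.moebius n : ℤ) : ℝ)| ≤ 1 := by exact_mod_cast h3
        linarith
      · rw [abs_zero]; linarith
      · rw [abs_one]; linarith
      · rw [abs_of_nonneg hlog0]
        linarith
    calc _ ≤ (1 + (d : ℝ)) * 1 := mul_le_mul hc hw (abs_nonneg _) (by linarith)
      _ = 1 + d := mul_one _

/-- the factor as a polynomial over its support -/
lemma PF_eq (z : ℕ) (t : Fin 3) (d : ℕ) (k : ℤ) : PF z t d k =
    DP ((sp d).filter (fun n => cf z t d n ≠ 0)) (fun n => ((cf z t d n : ℝ) : ℂ)) k := by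
  unfold PF DP
  rw [Finset.sum_filter]
  apply Finset.sum_congr rfl
  intro n _
  split_ifs with h
  · rfl
  · have : cf z t d n = 0 := not_not.1 h
    show ((cf z t d n : ℝ) : ℂ) * ch k (Real.log n) = 0
    rw [this]
    simp

/-- powers of a factor -/
theorem pow_factor (m : ℕ) : ∀ ε : ℝ, 0 < ε → ∃ C : ℝ, 1 ≤ C ∧ ∀ (z : ℕ) (t : Fin 3) (d : ℕ),
    ∃ (s : Finset ℕ) (b : ℕ → ℂ), (∀ k, PF z t d k ^ m = DP s b k) ∧
      (∀ n ∈ s, 1 ≤ n ∧ Real.exp (m * ((d : ℝ) - 1) / 20) ≤ n ∧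
        (n : ℝ) ≤ Real.exp (m * ((d : ℝ) + 1) / 20)) ∧
      ∀ n ∈ s, ‖b n‖ ≤ C * Real.exp (ε * d) / n := by
  induction m with
  | zero =>
    intro ε hε
    refine ⟨1, le_rfl, fun z t d => ⟨{1}, fun _ => 1, ?_, ?_, ?_⟩⟩
    · intro k
      unfold DP
      rw [Finset.sum_singleton, ch_one, pow_zero, mul_one]
    · intro n hn
      rw [Finset.mem_singleton] at hn
      subst hn
      simp
    · intro n hn
      rw [Finset.mem_singleton] at hn
      subst hn
      have : (1 : ℝ) ≤ Real.exp (ε * d) := Real.one_le_exp (by positivity)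
      simpa using this
  | succ m ih =>
    intro ε hε
    obtain ⟨C₁, hC₁, hC₁'⟩ := ih (ε / 4) (by positivity)
    set ε' : ℝ := ε / 4 * (20 / (m + 1)) with hε'
    have hε'0 : 0 < ε' := by rw [hε']; positivity
    obtain ⟨C₂, hC₂, hC₂'⟩ := Pool.Agent.Helper112.divisor_bound ε' hε'0
    obtain ⟨C₃, hC₃, hC₃'⟩ := poly_exp 1 (ε / 4) (by norm_num) (by positivity)
    have hCC : 0 ≤ C₁ * C₂ * Real.exp (ε / 4) * C₃ := by positivity
    refine ⟨1 + C₁ * C₂ * Real.exp (ε / 4) * C₃, by linarith, ?_⟩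
    intro z t d
    obtain ⟨s, b, hPs, hs, hb⟩ := hC₁' z t d
    set s' := (sp d).filter (fun n => cf z t d n ≠ 0) with hs'def
    have hs'1 : ∀ n ∈ s', 1 ≤ n := by
      intro n hn
      rw [hs'def, Finset.mem_filter] at hn
      unfold sp at hn
      exact (Finset.mem_Icc.1 hn.1).1
    have hs's : ∀ n ∈ s', Real.exp (((d : ℝ) - 1) / 20) ≤ n ∧
        (n : ℝ) ≤ Real.exp (((d : ℝ) + 1) / 20) := by
      intro n hn
      have h1 := hs'1 n hn
      rw [hs'def, Finset.mem_filter] at hn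
      exact cf_supp z t d n h1 hn.2
    have hrange : ∀ N : ℕ, N ∈ (s ×ˢ s').image (fun p => p.1 * p.2) → 1 ≤ N ∧
        Real.exp (((m + 1 : ℕ) : ℝ) * ((d : ℝ) - 1) / 20) ≤ N ∧
        (N : ℝ) ≤ Real.exp (((m + 1 : ℕ) : ℝ) * ((d : ℝ) + 1) / 20) := by
      intro N hN
      rw [Finset.mem_image] at hN
      obtain ⟨⟨n, n'⟩, hp, rfl⟩ := hN
      rw [Finset.mem_product] at hp
      obtain ⟨a1, a2, a3⟩ := hs n hp.1
      have b1 := hs'1 n' hp.2
      obtain ⟨b2, b3⟩ := hs's n' hp.2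
      refine ⟨Nat.one_le_iff_ne_zero.2 (Nat.mul_ne_zero (by omega) (by omega)), ?_, ?_⟩
      · have e1 : ((m + 1 : ℕ) : ℝ) * ((d : ℝ) - 1) / 20 =
          (m : ℝ) * ((d : ℝ) - 1) / 20 + ((d : ℝ) - 1) / 20 := by push_cast; ring
        rw [e1, Real.exp_add]
        push_cast
        exact mul_le_mul a2 b2 (Real.exp_pos _).le (Nat.cast_nonneg _)
      · have e1 : ((m + 1 : ℕ) : ℝ) * ((d : ℝ) + 1) / 20 =
          (m : ℝ) * ((d : ℝ) + 1) / 20 + ((d : ℝ) + 1) / 20 := by push_cast; ring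
        rw [e1, Real.exp_add]
        push_cast
        exact mul_le_mul a3 b3 (Nat.cast_nonneg _) (Real.exp_pos _).le
    refine ⟨(s ×ˢ s').image (fun p => p.1 * p.2),
      fun N => ∑ p ∈ (s ×ˢ s').filter (fun p => p.1 * p.2 = N),
        b p.1 * ((cf z t d p.2 : ℝ) : ℂ), fun k => ?_, hrange, ?_⟩
    · rw [pow_succ, hPs, PF_eq z t d k]
      exact DP_mul s s' b _ k (fun n hn => (hs n hn).1) hs'1
    · intro N hN
      obtain ⟨hN1, hN2, hN3⟩ := hrange N hN
      have hN0 : (0 : ℝ) < N := by exact_mod_cast hN1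
      refine (norm_sum_le _ _).trans ?_
      have hterm : ∀ p ∈ (s ×ˢ s').filter (fun p => p.1 * p.2 = N),
          ‖b p.1 * ((cf z t d p.2 : ℝ) : ℂ)‖ ≤
            C₁ * Real.exp (ε / 4 * d) * (1 + d) / N := by
        rintro ⟨n, n'⟩ hp
        rw [Finset.mem_filter, Finset.mem_product] at hp
        obtain ⟨⟨h1, h2⟩, h3⟩ := hp
        simp only at h1 h2 h3 ⊢
        have a1 := hb n h1
        have a2 := cf_le z t d n' (hs'1 n' h2)
        have n0 : (0 : ℝ) < n := by exact_mod_cast (hs n h1).1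
        have n0' : (0 : ℝ) < n' := by exact_mod_cast hs'1 n' h2
        rw [norm_mul, Complex.norm_real, Real.norm_eq_abs]
        calc ‖b n‖ * |cf z t d n'| ≤ (C₁ * Real.exp (ε / 4 * d) / n) * ((1 + d) / n') :=
              mul_le_mul a1 a2 (abs_nonneg _) (by positivity)
          _ = C₁ * Real.exp (ε / 4 * d) * (1 + d) / N := by
            rw [← h3]
            push_cast
            field_simp
      refine (Finset.sum_le_card_nsmul _ _ _ hterm).trans ?_
      rw [nsmul_eq_mul]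
      have hcard : (((s ×ˢ s').filter (fun p => p.1 * p.2 = N)).card : ℝ) ≤
          C₂ * (Real.exp (ε / 4) * Real.exp (ε / 4 * d)) := by
        have c1 : (((s ×ˢ s').filter (fun p => p.1 * p.2 = N)).card : ℝ) ≤ N.divisors.card := by
          exact_mod_cast card_fiber s s' N hN1
        refine (c1.trans (hC₂' N hN1)).trans ?_
        apply mul_le_mul_of_nonneg_left _ hC₂.le
        calc (N : ℝ) ^ ε' ≤ (Real.exp (((m + 1 : ℕ) : ℝ) * ((d : ℝ) + 1) / 20)) ^ ε' :=
              Real.rpow_le_rpow hN0.le hN3 hε'0.le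
          _ = Real.exp (ε / 4 * (d + 1)) := by
            rw [← Real.exp_mul, hε']
            congr 1
            push_cast
            field_simp
          _ = Real.exp (ε / 4) * Real.exp (ε / 4 * d) := by
            rw [← Real.exp_add]
            congr 1
            ring
      have hd1 : 1 + (d : ℝ) ≤ C₃ * Real.exp (ε / 4 * d) := by
        have := hC₃' d
        linarith
      calc (((s ×ˢ s').filter (fun p => p.1 * p.2 = N)).card : ℝ) *
          (C₁ * Real.exp (ε / 4 * d) * (1 + d) / N) ≤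
          (C₂ * (Real.exp (ε / 4) * Real.exp (ε / 4 * d))) *
            (C₁ * Real.exp (ε / 4 * d) * (C₃ * Real.exp (ε / 4 * d)) / N) := by
            apply mul_le_mul hcard _ (by positivity) (by positivity)
            apply div_le_div_of_nonneg_right _ hN0.le
            apply mul_le_mul_of_nonneg_left hd1 (by positivity)
        _ = C₁ * C₂ * Real.exp (ε / 4) * C₃ *
            (Real.exp (ε / 4 * d) * Real.exp (ε / 4 * d) * Real.exp (ε / 4 * d)) / N := by ring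
        _ ≤ (1 + C₁ * C₂ * Real.exp (ε / 4) * C₃) * Real.exp (ε * d) / N := by
          apply div_le_div_of_nonneg_right _ hN0.le
          rw [← Real.exp_add, ← Real.exp_add]
          apply mul_le_mul (by linarith) _ (Real.exp_pos _).le (by positivity)
          apply Real.exp_le_exp.2
          have : 0 ≤ ε * (d : ℝ) := by positivity
          linarith

/-- the harmonic sum -/
lemma harm (s : Finset ℕ) (x : ℝ) (hx : 1 ≤ x) (hs : ∀ n ∈ s, 1 ≤ n ∧ (n : ℝ) ≤ x) :
    ∑ n ∈ s, (1 : ℝ) / n ≤ 1 + Real.log x := by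
  have h1 : s ⊆ Icc 1 ⌊x⌋₊ := by
    intro n hn
    rw [Finset.mem_Icc]
    exact ⟨(hs n hn).1, Nat.le_floor (hs n hn).2⟩
  have h2 : ∑ n ∈ s, (1 : ℝ) / n ≤ ∑ n ∈ Icc 1 ⌊x⌋₊, (1 : ℝ) / n :=
    Finset.sum_le_sum_of_subset_of_nonneg h1 fun _ _ _ => by positivity
  have h3 := harmonic_floor_le_one_add_log x hx
  rw [harmonic_eq_sum_Icc] at h3
  push_cast at h3
  simp only [one_div] at h2 ⊢
  linarith

theorem lvm : S_LVM := by
  intro m ε hm hε
  obtain ⟨C₀, hC₀, hmv⟩ := mv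
  obtain ⟨C₁, hC₁, hpow⟩ := pow_factor m (ε / 4) (by positivity)
  obtain ⟨C₂, hC₂, hpoly⟩ := poly_exp ((m : ℝ) / 20) (ε / 4) (by positivity) (by positivity)
  have hCC : 0 ≤ C₀ * (C₂ * C₂) * C₁ ^ 2 * Real.exp (m / 20) := by positivity
  refine ⟨1 + C₀ * (C₂ * C₂) * C₁ ^ 2 * Real.exp (m / 20), by linarith, ?_⟩
  intro z t d K V L hK hV hL
  obtain ⟨s, b, hPs, hs, hb⟩ := hpow z t d
  have hd0 : (0 : ℝ) ≤ d := Nat.cast_nonneg d
  have hm0 : (0 : ℝ) ≤ m := Nat.cast_nonneg m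
  set N₂ : ℝ := Real.exp (m * ((d : ℝ) + 1) / 20) with hN₂
  have hN₂1 : 1 ≤ N₂ := Real.one_le_exp (by positivity)
  have hlogN₂ : Real.log N₂ = m * ((d : ℝ) + 1) / 20 := by rw [hN₂, Real.log_exp]
  have hm1 := hmv s b 1 N₂ K le_rfl hN₂1
    (fun n hn => ⟨by exact_mod_cast (hs n hn).1, (hs n hn).2.2⟩) hK
  rw [div_one, hlogN₂] at hm1
  set E := Real.exp (ε / 4 * d) with hE
  have hE0 : 0 < E := Real.exp_pos _
  have hp := hpoly d
  have hp' : 1 + (m : ℝ) * ((d : ℝ) + 1) / 20 ≤ C₂ * E := by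
    have : (m : ℝ) * ((d : ℝ) + 1) / 20 = (m : ℝ) / 20 * ((d : ℝ) + 1) := by ring
    rw [this]
    exact hp
  -- the coefficient sum
  have hco : ∑ n ∈ s, ‖b n‖ ^ 2 * ((n : ℝ) + K) ≤
      (C₁ * E) ^ 2 * (1 + K * (Real.exp (m / 20) * Real.exp (-(m * d / 20 : ℝ)))) *
        (C₂ * E) := by
    have hterm : ∀ n ∈ s, ‖b n‖ ^ 2 * ((n : ℝ) + K) ≤
        (C₁ * E) ^ 2 * (1 + K * (Real.exp (m / 20) * Real.exp (-(m * d / 20 : ℝ)))) *
          (1 / n) := by
      intro n hn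
      obtain ⟨h1, h2, h3⟩ := hs n hn
      have n0 : (0 : ℝ) < n := by exact_mod_cast h1
      have hbn := hb n hn
      have e1 : ‖b n‖ ^ 2 ≤ (C₁ * E / n) ^ 2 := pow_le_pow_left₀ (norm_nonneg _) hbn 2
      have e2 : (1 : ℝ) / n ≤ Real.exp (m / 20) * Real.exp (-(m * d / 20 : ℝ)) := by
        rw [← Real.exp_add, div_le_iff₀ n0]
        have e3 : (1 : ℝ) = Real.exp (m / 20 + -(m * d / 20 : ℝ)) *
            Real.exp (m * ((d : ℝ) - 1) / 20) := by
          rw [← Real.exp_add]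
          have : (m : ℝ) / 20 + -(m * d / 20 : ℝ) + m * ((d : ℝ) - 1) / 20 = 0 := by ring
          rw [this, Real.exp_zero]
        calc (1 : ℝ) = Real.exp (m / 20 + -(m * d / 20 : ℝ)) *
            Real.exp (m * ((d : ℝ) - 1) / 20) := e3
          _ ≤ _ := mul_le_mul_of_nonneg_left h2 (Real.exp_pos _).le
      calc ‖b n‖ ^ 2 * ((n : ℝ) + K) ≤ (C₁ * E / n) ^ 2 * ((n : ℝ) + K) :=
            mul_le_mul_of_nonneg_right e1 (by positivity)
        _ = (C₁ * E) ^ 2 * (1 + K * (1 / n)) * (1 / n) := by field_simp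
        _ ≤ _ := by
          apply mul_le_mul_of_nonneg_right _ (by positivity)
          apply mul_le_mul_of_nonneg_left _ (by positivity)
          have := mul_le_mul_of_nonneg_left e2 (Nat.cast_nonneg (α := ℝ) K)
          linarith
    refine (Finset.sum_le_sum hterm).trans ?_
    rw [← Finset.mul_sum]
    apply mul_le_mul_of_nonneg_left _ (by positivity)
    have := harm s N₂ hN₂1 (fun n hn => ⟨(hs n hn).1, (hs n hn).2.2⟩)
    rw [hlogN₂] at this
    exact this.trans hp'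
  -- the lower bound
  have hLsub : L ⊆ FK K := fun k hk => (hL k hk).1
  have hlow : (L.card : ℝ) * V ^ (2 * m) ≤ ∑ k ∈ FK K, ‖DP s b k‖ ^ 2 := by
    calc (L.card : ℝ) * V ^ (2 * m) = ∑ _k ∈ L, V ^ (2 * m) := by
          rw [Finset.sum_const, nsmul_eq_mul]
      _ ≤ ∑ k ∈ L, ‖DP s b k‖ ^ 2 := by
        apply Finset.sum_le_sum
        intro k hk
        rw [← hPs, norm_pow, ← pow_mul, mul_comm m 2]
        exact pow_le_pow_left₀ hV.le (hL k hk).2 _
      _ ≤ _ := Finset.sum_le_sum_of_subset_of_nonneg hLsub fun _ _ _ => by positivity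
  rw [le_div_iff₀ (by positivity)]
  refine hlow.trans (hm1.trans ?_)
  have hKe : 0 ≤ (K : ℝ) * Real.exp (-(m * d / 20 : ℝ)) := by positivity
  have hexp1 : (1 : ℝ) ≤ Real.exp (m / 20) := Real.one_le_exp (by positivity)
  calc C₀ * (1 + (m : ℝ) * ((d : ℝ) + 1) / 20) * ∑ n ∈ s, ‖b n‖ ^ 2 * ((n : ℝ) + K) ≤
      C₀ * (C₂ * E) * ((C₁ * E) ^ 2 *
        (1 + K * (Real.exp (m / 20) * Real.exp (-(m * d / 20 : ℝ)))) * (C₂ * E)) := by
        apply mul_le_mul _ hco _ (by positivity)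
        · exact mul_le_mul_of_nonneg_left hp' hC₀.le
        · apply Finset.sum_nonneg
          intro n _
          positivity
    _ = C₀ * (C₂ * C₂) * C₁ ^ 2 * (E * E * E * E) *
        (1 + K * (Real.exp (m / 20) * Real.exp (-(m * d / 20 : ℝ)))) := by ring
    _ ≤ C₀ * (C₂ * C₂) * C₁ ^ 2 * (E * E * E * E) *
        (Real.exp (m / 20) * (1 + K * Real.exp (-(m * d / 20 : ℝ)))) := by
        apply mul_le_mul_of_nonneg_left _ (by positivity)
        nlinarith
    _ = C₀ * (C₂ * C₂) * C₁ ^ 2 * Real.exp (m / 20) * Real.exp (ε * d) *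
        (1 + K * Real.exp (-(m * d / 20 : ℝ))) := by
        have : E * E * E * E = Real.exp (ε * d) := by
          rw [hE, ← Real.exp_add, ← Real.exp_add, ← Real.exp_add]
          congr 1
          ring
        rw [this]
        ring
    _ ≤ _ := by
      apply mul_le_mul_of_nonneg_right _ (by positivity)
      apply mul_le_mul_of_nonneg_right _ (Real.exp_pos _).le
      linarith

theorem lvh (h : S_HU) : S_LVH := by
  intro m ε hm hε
  obtain ⟨C₀, hC₀, hhu⟩ := h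
  obtain ⟨C₁, hC₁, hpow⟩ := pow_factor m (ε / 12) (by positivity)
  obtain ⟨C₂, hC₂, hpoly⟩ := poly_exp (3 * (m + 1)) (ε / 12) (by positivity) (by positivity)
  set G₀ : ℝ := C₁ ^ 2 * C₂ with hG₀
  have hG₀0 : 0 ≤ G₀ := by positivity
  set C₃ : ℝ := ((m : ℝ) + 1) * (C₀ * C₂ ^ 2 * ((m + 1) ^ 6 * (G₀ + G₀ ^ 3 * Real.exp (m / 10))))
    with hC₃
  have hC₃0 : 0 ≤ C₃ := by positivity
  refine ⟨1 + C₃, by linarith, ?_⟩
  intro z t d K V L hK hV hL
  obtain ⟨s, b, hPs, hs, hb⟩ := hpow z t d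
  have hd0 : (0 : ℝ) ≤ d := Nat.cast_nonneg d
  have hm0 : (0 : ℝ) ≤ m := Nat.cast_nonneg m
  have hK0 : (0 : ℝ) < K := by exact_mod_cast hK
  set E := Real.exp (ε / 12 * d) with hE
  have hE0 : 0 < E := Real.exp_pos _
  have hE1 : 1 ≤ E := Real.one_le_exp (by positivity)
  have hp : 1 + 3 * ((m : ℝ) + 1) * ((d : ℝ) + 1) ≤ C₂ * E := hpoly d
  set N₂ : ℝ := Real.exp (m * ((d : ℝ) + 1) / 20) with hN₂
  have hN₂1 : 1 ≤ N₂ := Real.one_le_exp (by positivity)
  have hlogN₂ : Real.log N₂ = m * ((d : ℝ) + 1) / 20 := by rw [hN₂, Real.log_exp]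
  set x₀ : ℝ := max 0 (m * ((d : ℝ) - 1) / 20) with hx₀
  have hx₀0 : 0 ≤ x₀ := le_max_left _ _
  have hx₀1 : m * ((d : ℝ) - 1) / 20 ≤ x₀ := le_max_right _ _
  have hx₀2 : x₀ ≤ m * ((d : ℝ) + 1) / 20 := by
    apply max_le (by positivity)
    have : (0 : ℝ) ≤ m * 2 / 20 := by positivity
    linarith
  have hlogn : ∀ n ∈ s, x₀ ≤ Real.log n ∧ Real.log n ≤ m * ((d : ℝ) + 1) / 20 := by
    intro n hn
    obtain ⟨h1, h2, h3⟩ := hs n hn
    have n0 : (0 : ℝ) < n := by exact_mod_cast h1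
    constructor
    · apply max_le
      · exact Real.log_nonneg (by exact_mod_cast h1)
      · exact (Real.le_log_iff_exp_le n0).2 h2
    · exact (Real.log_le_iff_le_exp n0).2 h3
  let pc : ℕ → ℕ := fun n => ⌊(Real.log n - x₀) / 2⌋₊
  have hpc : ∀ n ∈ s, pc n ∈ range (m + 1) := by
    intro n hn
    obtain ⟨h1, h2⟩ := hlogn n hn
    rw [Finset.mem_range, Nat.lt_succ_iff]
    apply Nat.floor_le_of_le
    have : (m : ℝ) * ((d : ℝ) + 1) / 20 = m * ((d : ℝ) - 1) / 20 + m / 10 := by ring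
    have h3 : Real.log n - x₀ ≤ m / 10 := by linarith
    linarith
  -- splitting
  let sj : ℕ → Finset ℕ := fun j => s.filter (fun n => pc n = j)
  have hsplit : ∀ k, DP s b k = ∑ j ∈ range (m + 1), DP (sj j) b k := by
    intro k
    unfold DP
    exact (Finset.sum_fiberwise_of_maps_to hpc _).symm
  set V' : ℝ := V ^ m / (m + 1) with hV'
  have hV'0 : 0 < V' := by rw [hV']; positivity
  let Lj : ℕ → Finset ℤ := fun j => L.filter (fun k => V' ≤ ‖DP (sj j) b k‖)
  have hcov : L ⊆ (range (m + 1)).biUnion Lj := by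
    intro k hk
    rw [Finset.mem_biUnion]
    by_contra hcon
    push Not at hcon
    have h1 : ∀ j ∈ range (m + 1), ‖DP (sj j) b k‖ < V' := by
      intro j hj
      by_contra hc
      exact hcon j hj (Finset.mem_filter.2 ⟨hk, not_lt.1 hc⟩)
    have h2 : V ^ m ≤ ‖DP s b k‖ := by
      rw [← hPs, norm_pow]
      exact pow_le_pow_left₀ hV.le (hL k hk).2 _
    have h3 : ‖DP s b k‖ < V ^ m := by
      rw [hsplit]
      calc ‖∑ j ∈ range (m + 1), DP (sj j) b k‖ ≤ ∑ j ∈ range (m + 1), ‖DP (sj j) b k‖ :=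
            norm_sum_le _ _
        _ < ∑ _j ∈ range (m + 1), V' :=
            Finset.sum_lt_sum_of_nonempty ⟨0, Finset.mem_range.2 (by omega)⟩ h1
        _ = V ^ m := by
          rw [Finset.sum_const, card_range, nsmul_eq_mul, hV']
          push_cast
          field_simp
    linarith
  have hcardL : (L.card : ℝ) ≤ ∑ j ∈ range (m + 1), ((Lj j).card : ℝ) := by
    have := (Finset.card_le_card hcov).trans Finset.card_biUnion_le
    exact_mod_cast this
  -- Huxley on each piece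
  have hpiece : ∀ j ∈ range (m + 1), ((Lj j).card : ℝ) ≤
      C₀ * C₂ ^ 2 * ((m + 1) ^ 6 * (G₀ + G₀ ^ 3 * Real.exp (m / 10))) * Real.exp (ε * d) *
        (1 / V ^ (2 * m) + K * Real.exp (-(m * d / 10 : ℝ)) / V ^ (6 * m)) := by
    intro j hj
    rw [Finset.mem_range] at hj
    have hjm : (j : ℝ) ≤ m := by exact_mod_cast Nat.lt_succ_iff.1 hj
    set N : ℝ := Real.exp (x₀ + 2 * j) with hN
    have hN1 : 1 ≤ N := Real.one_le_exp (by positivity)
    have hN0 : 0 < N := by linarith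
    have hlogN : Real.log N = x₀ + 2 * j := by rw [hN, Real.log_exp]
    have hmem : ∀ n ∈ sj j, 1 ≤ n ∧ |Real.log n - Real.log N| ≤ 2 := by
      intro n hn
      rw [Finset.mem_filter] at hn
      obtain ⟨h1, h2⟩ := hn
      obtain ⟨a1, a2⟩ := hlogn n h1
      refine ⟨(hs n h1).1, ?_⟩
      have b1 : (pc n : ℝ) ≤ (Real.log n - x₀) / 2 := Nat.floor_le (by linarith)
      have b2 : (Real.log n - x₀) / 2 < pc n + 1 := Nat.lt_floor_add_one _
      rw [h2] at b1 b2
      rw [hlogN, abs_le]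
      constructor <;> linarith
    have hhu' := hhu (sj j) b N K V' (Lj j) hN1 hmem hK hV'0 (by
      intro k hk
      rw [Finset.mem_filter] at hk
      exact ⟨(hL k hk.1).1, hk.2⟩)
    set G : ℝ := ∑ n ∈ sj j, (n : ℝ) * ‖b n‖ ^ 2 with hG
    have hG0 : 0 ≤ G := Finset.sum_nonneg fun n _ => by positivity
    have hGle : G ≤ G₀ * E ^ 3 := by
      have hterm : ∀ n ∈ sj j, (n : ℝ) * ‖b n‖ ^ 2 ≤ (C₁ * E) ^ 2 * (1 / n) := by
        intro n hn
        rw [Finset.mem_filter] at hn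
        have n0 : (0 : ℝ) < n := by exact_mod_cast (hs n hn.1).1
        have e1 : ‖b n‖ ^ 2 ≤ (C₁ * E / n) ^ 2 := pow_le_pow_left₀ (norm_nonneg _) (hb n hn.1) 2
        calc (n : ℝ) * ‖b n‖ ^ 2 ≤ n * (C₁ * E / n) ^ 2 :=
              mul_le_mul_of_nonneg_left e1 n0.le
          _ = (C₁ * E) ^ 2 * (1 / n) := by field_simp
      refine (Finset.sum_le_sum hterm).trans ?_
      rw [← Finset.mul_sum]
      have e2 := harm (sj j) N₂ hN₂1 (fun n hn => by
        rw [Finset.mem_filter] at hn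
        exact ⟨(hs n hn.1).1, (hs n hn.1).2.2⟩)
      rw [hlogN₂] at e2
      have e3 : 1 + (m : ℝ) * ((d : ℝ) + 1) / 20 ≤ C₂ * E := by
        refine le_trans ?_ hp
        have : (0 : ℝ) ≤ (m + 1) * (d + 1) := by positivity
        nlinarith
      calc (C₁ * E) ^ 2 * ∑ n ∈ sj j, (1 : ℝ) / n ≤ (C₁ * E) ^ 2 * (C₂ * E) :=
            mul_le_mul_of_nonneg_left (e2.trans e3) (by positivity)
        _ = G₀ * E ^ 3 := by rw [hG₀]; ring
    have hlog2 : 1 + Real.log N ≤ C₂ * E := by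
      rw [hlogN]
      refine le_trans ?_ hp
      have h1 : (0 : ℝ) ≤ (m : ℝ) * d := by positivity
      nlinarith
    have hlog0 : 0 ≤ 1 + Real.log N := by
      rw [hlogN]
      positivity
    have hNsq : 1 / N ^ 2 ≤ Real.exp (m / 10) * Real.exp (-(m * d / 10 : ℝ)) := by
      have e1 : 1 / N ^ 2 = Real.exp (-(2 * (x₀ + 2 * j))) := by
        rw [hN, ← Real.exp_nat_mul, one_div, ← Real.exp_neg]
        congr 1
      rw [e1, ← Real.exp_add]
      apply Real.exp_le_exp.2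
      have : (0 : ℝ) ≤ j := Nat.cast_nonneg j
      linarith
    have hVV : V' ^ 2 = V ^ (2 * m) / (m + 1) ^ 2 := by
      rw [hV', div_pow, ← pow_mul, mul_comm m 2]
    have hVV6 : V' ^ 6 = V ^ (6 * m) / (m + 1) ^ 6 := by
      rw [hV', div_pow, ← pow_mul, mul_comm m 6]
    have hm11 : (1 : ℝ) ≤ (m : ℝ) + 1 := by linarith
    have t1 : G / V' ^ 2 ≤ (m + 1) ^ 6 * G₀ * E ^ 9 * (1 / V ^ (2 * m)) := by
      rw [hVV]
      have e1 : G / (V ^ (2 * m) / ((m : ℝ) + 1) ^ 2) = (m + 1) ^ 2 * G * (1 / V ^ (2 * m)) := by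
        field_simp
      rw [e1]
      apply mul_le_mul_of_nonneg_right _ (by positivity)
      have e2 : ((m : ℝ) + 1) ^ 2 ≤ (m + 1) ^ 6 := pow_le_pow_right₀ hm11 (by norm_num)
      have e3 : G ≤ G₀ * E ^ 9 := hGle.trans
        (mul_le_mul_of_nonneg_left (pow_le_pow_right₀ hE1 (by norm_num)) hG₀0)
      calc ((m : ℝ) + 1) ^ 2 * G ≤ (m + 1) ^ 6 * (G₀ * E ^ 9) :=
            mul_le_mul e2 e3 hG0 (by positivity)
        _ = _ := by ring
    have t2 : K * G ^ 3 / (N ^ 2 * V' ^ 6) ≤ (m + 1) ^ 6 * (G₀ ^ 3 * Real.exp (m / 10)) * E ^ 9 *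
        (K * Real.exp (-(m * d / 10 : ℝ)) / V ^ (6 * m)) := by
      rw [hVV6]
      have e1 : K * G ^ 3 / (N ^ 2 * (V ^ (6 * m) / ((m : ℝ) + 1) ^ 6)) =
          (m + 1) ^ 6 * G ^ 3 * (K / V ^ (6 * m)) * (1 / N ^ 2) := by
        field_simp
      rw [e1]
      have e2 : G ^ 3 ≤ G₀ ^ 3 * E ^ 9 := by
        calc G ^ 3 ≤ (G₀ * E ^ 3) ^ 3 := pow_le_pow_left₀ hG0 hGle 3
          _ = G₀ ^ 3 * E ^ 9 := by ring
      calc ((m : ℝ) + 1) ^ 6 * G ^ 3 * (K / V ^ (6 * m)) * (1 / N ^ 2) ≤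
          (m + 1) ^ 6 * (G₀ ^ 3 * E ^ 9) * (K / V ^ (6 * m)) *
            (Real.exp (m / 10) * Real.exp (-(m * d / 10 : ℝ))) := by
            apply mul_le_mul _ hNsq (by positivity) (by positivity)
            apply mul_le_mul_of_nonneg_right _ (by positivity)
            apply mul_le_mul_of_nonneg_left e2 (by positivity)
        _ = _ := by ring
    refine hhu'.trans ?_
    set A₁ : ℝ := 1 / V ^ (2 * m) with hA₁
    set A₂ : ℝ := K * Real.exp (-(m * d / 10 : ℝ)) / V ^ (6 * m) with hA₂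
    have hA₁0 : 0 ≤ A₁ := by positivity
    have hA₂0 : 0 ≤ A₂ := by positivity
    have hsq : (1 + Real.log N) ^ 2 ≤ (C₂ * E) ^ 2 := pow_le_pow_left₀ hlog0 hlog2 2
    calc C₀ * (1 + Real.log N) ^ 2 * (G / V' ^ 2 + K * G ^ 3 / (N ^ 2 * V' ^ 6)) ≤
        C₀ * (C₂ * E) ^ 2 * ((m + 1) ^ 6 * G₀ * E ^ 9 * A₁ +
          (m + 1) ^ 6 * (G₀ ^ 3 * Real.exp (m / 10)) * E ^ 9 * A₂) := by
          apply mul_le_mul _ (add_le_add t1 t2) (by positivity) (by positivity)
          apply mul_le_mul_of_nonneg_left hsq (by linarith)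
      _ ≤ C₀ * (C₂ * E) ^ 2 * ((m + 1) ^ 6 * (G₀ + G₀ ^ 3 * Real.exp (m / 10)) * E ^ 9 *
          (A₁ + A₂)) := by
          apply mul_le_mul_of_nonneg_left _ (by positivity)
          have u1 : 0 ≤ ((m : ℝ) + 1) ^ 6 * E ^ 9 * (G₀ * A₂) := by positivity
          have u2 : 0 ≤ ((m : ℝ) + 1) ^ 6 * E ^ 9 * (G₀ ^ 3 * Real.exp (m / 10) * A₁) := by
            positivity
          nlinarith
      _ = C₀ * C₂ ^ 2 * ((m + 1) ^ 6 * (G₀ + G₀ ^ 3 * Real.exp (m / 10))) * E ^ 11 *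
          (A₁ + A₂) := by ring
      _ ≤ _ := by
        apply mul_le_mul_of_nonneg_right _ (by positivity)
        apply mul_le_mul_of_nonneg_left _ (by positivity)
        rw [hE, ← Real.exp_nat_mul]
        apply Real.exp_le_exp.2
        push_cast
        have : 0 ≤ ε * (d : ℝ) := by positivity
        linarith
  refine hcardL.trans ((Finset.sum_le_sum hpiece).trans ?_)
  rw [Finset.sum_const, card_range, nsmul_eq_mul]
  have hnn : 0 ≤ 1 / V ^ (2 * m) + K * Real.exp (-(m * d / 10 : ℝ)) / V ^ (6 * m) := by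
    positivity
  calc ((m + 1 : ℕ) : ℝ) * (C₀ * C₂ ^ 2 * ((m + 1) ^ 6 * (G₀ + G₀ ^ 3 * Real.exp (m / 10))) *
      Real.exp (ε * d) * (1 / V ^ (2 * m) + K * Real.exp (-(m * d / 10 : ℝ)) / V ^ (6 * m))) =
      C₃ * Real.exp (ε * d) *
        (1 / V ^ (2 * m) + K * Real.exp (-(m * d / 10 : ℝ)) / V ^ (6 * m)) := by
        rw [hC₃]
        push_cast
        ring
    _ ≤ _ := by
      apply mul_le_mul_of_nonneg_right _ hnn
      apply mul_le_mul_of_nonneg_right _ (Real.exp_pos _).le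
      linarith

end Pool.Agent.Q166.KS
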